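import Pool.Agent.Helper8.HX.Defs
import Pool.Agent.Helper33.DE.AlgDivG
import Pool.Agent.Helper43.DE.Cross

/-!
HX: pointwise algebra (K1, K9b, K9c, K10b, K10c)
-/

set_option autoImplicit false
set_option linter.unusedSimpArgs false

open scoped Manifold ContDiff

namespace Pool.Agent.Helper35.HX

open Pool.Agent.Helper8.DC Pool.Agent.Helper8.DA Pool.Agent.Helper8.DE Pool.Agent.Helper8.HX
open Pool.Agent.Helper33.DA (sum_wedge3 wedge3_smul_right trip_add_cov trip_sub_cov trip_sub_phi)

noncomputable section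

theorem trip_cross (φ : R3) (D T : Fin 4 → Fin 4 → R3) (hD : ∀ l m, D l m = -D m l) :
    ∑ l, trip φ (Pi.single l 1) (fun m => (1 / 2 : ℝ) • crossProduct (D l m) φ) T =
      restK φ (crossGram D T) := by
  have h2 : ∀ b c, ∑ l, wedge3 (Pi.single l 1) (cmp D b l) (cmp T c) =
      2 * crossGram D T b c := fun b c =>
    sum_wedge3 (cmp D b) _ fun l m => by simp only [Pool.Agent.Helper8.DC.cmp]; rw [hD l m]; rfl
  have h3 : ∀ l, trip φ (Pi.single l 1) (fun m => (1 / 2 : ℝ) • crossProduct (D l m) φ) T =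
      1 / 2 * (φ 0 * ((wedge3 (Pi.single l 1) (cmp D 2 l) (cmp T 2) * φ 0 -
          wedge3 (Pi.single l 1) (cmp D 0 l) (cmp T 2) * φ 2) -
        (wedge3 (Pi.single l 1) (cmp D 0 l) (cmp T 1) * φ 1 -
          wedge3 (Pi.single l 1) (cmp D 1 l) (cmp T 1) * φ 0)) +
      φ 1 * ((wedge3 (Pi.single l 1) (cmp D 0 l) (cmp T 0) * φ 1 -
          wedge3 (Pi.single l 1) (cmp D 1 l) (cmp T 0) * φ 0) -
        (wedge3 (Pi.single l 1) (cmp D 1 l) (cmp T 2) * φ 2 -
          wedge3 (Pi.single l 1) (cmp D 2 l) (cmp T 2) * φ 1)) +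
      φ 2 * ((wedge3 (Pi.single l 1) (cmp D 1 l) (cmp T 1) * φ 2 -
          wedge3 (Pi.single l 1) (cmp D 2 l) (cmp T 1) * φ 1) -
        (wedge3 (Pi.single l 1) (cmp D 2 l) (cmp T 0) * φ 0 -
          wedge3 (Pi.single l 1) (cmp D 0 l) (cmp T 0) * φ 2))) := by
    intro l
    simp only [trip, wedge3, wedge, wed, cm1, Pool.Agent.Helper8.DC.cmp, Pi.smul_apply, smul_eq_mul, cross_apply,
      Matrix.cons_val_zero, Matrix.cons_val_one, Matrix.cons_val]
    ring
  simp only [h3, ← Finset.mul_sum, Finset.sum_add_distrib, Finset.sum_sub_distrib,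
    ← Finset.sum_mul, h2]
  simp only [restK, Matrix.trace, Matrix.diag, Fin.sum_univ_three]
  ring

theorem alg_divH {N : ℕ} (A : Fin 4 → R3) (B : Fin 4 → Matrix (Fin N) (Fin N) ℝ)
    (hB : ∀ m r t, B m r t = -B m t r) (G : Fin N → Fin N → Fin 4 → Fin 4 → ℝ)
    (hG : ∀ r t l m, G r t l m = -G r t m l) (φ : Fin N → R3) (c : Fin N → Fin 4 → R3)
    (dc : Fin N → Fin 4 → Fin 4 → R3) (F T : Fin 4 → Fin 4 → R3)
    (dT : Fin 4 → Fin 4 → Fin 4 → R3) (hF : ∀ l m, F l m = -F m l) (hT : ∀ l m, T l m = -T m l)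
    (hdT : ∀ k l m, dT k l m = -dT k m l)
    (h1 : ∀ r l m, dc r l m - dc r m l + crossProduct (A l) (c r m) - crossProduct (A m) (c r l) +
      ∑ t, (B l r t • c t m - B m r t • c t l) = crossProduct (F l m) (φ r) + ∑ t, G r t l m • φ t)
    (h2 : ∀ l m n, dT l m n + dT m n l + dT n l m + crossProduct (A l) (T m n) +
      crossProduct (A m) (T n l) + crossProduct (A n) (T l m) = 0) :
    ∑ l, ∑ r, (trip (c r l - crossProduct (A l) (φ r) - ∑ t, B l r t • φ t) (Pi.single l 1) (c r) T +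
      trip (φ r) (Pi.single l 1) (dc r l) T + trip (φ r) (Pi.single l 1) (c r) (dT l)) =
      ∑ r, (quad (c r) T + restK (φ r) (crossGram F T)) + curvTerm G φ T := by
  set D : Fin 4 → Fin 4 → R3 := fun l m => F l m - T l m with hDdef
  have hD : ∀ l m, D l m = -D m l := by
    intro l m
    simp only [hDdef]
    rw [hF l m, hT l m]
    abel
  have key := Pool.Agent.Helper33.DE.alg_divG A B hB G hG φ c
    (fun r l m => dc r l m - (1 / 2 : ℝ) • crossProduct (D l m) (φ r)) T dT hT hdT
    (by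
      intro r l m
      have e1 := h1 r l m
      have e2 : crossProduct (D m l) (φ r) = -crossProduct (D l m) (φ r) := by
        rw [hD m l, map_neg, LinearMap.neg_apply]
      have e3 : crossProduct (D l m) (φ r) = crossProduct (F l m) (φ r) -
          crossProduct (T l m) (φ r) := by
        simp only [hDdef, map_sub, LinearMap.sub_apply]
      have e4 : (1 / 2 : ℝ) • crossProduct (D l m) (φ r) + (1 / 2 : ℝ) • crossProduct (D l m) (φ r) =
          crossProduct (D l m) (φ r) := by
        rw [← add_smul]; norm_num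
      rw [e2, smul_neg]
      have e5 : crossProduct (T l m) (φ r) + ∑ t, G r t l m • φ t =
          (crossProduct (F l m) (φ r) + ∑ t, G r t l m • φ t) - crossProduct (D l m) (φ r) := by
        rw [e3]; abel
      rw [e5, ← e1]
      generalize crossProduct (D l m) (φ r) = X at e4 ⊢
      generalize (1 / 2 : ℝ) • X = H at e4 ⊢
      rw [← e4]
      abel)
    h2
  have h5 : ∀ l r, trip (φ r) (Pi.single l 1)
      (fun m => dc r l m - (1 / 2 : ℝ) • crossProduct (D l m) (φ r)) T =
      trip (φ r) (Pi.single l 1) (dc r l) T -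
      trip (φ r) (Pi.single l 1) (fun m => (1 / 2 : ℝ) • crossProduct (D l m) (φ r)) T :=
    fun l r => trip_sub_cov _ _ _ _ _
  have h6 : ∀ r, restK (φ r) (crossGram F T) = rest (φ r) T + restK (φ r) (crossGram D T) := by
    intro r
    simp only [restK, rest, crossGram, gram, Matrix.trace, Matrix.diag, Fin.sum_univ_three, hDdef,
      wedge, Pool.Agent.Helper8.DC.cmp, Pi.sub_apply]
    ring
  have h7 : ∑ l, ∑ r, trip (φ r) (Pi.single l 1)
      (fun m => (1 / 2 : ℝ) • crossProduct (D l m) (φ r)) T =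
      ∑ r, restK (φ r) (crossGram D T) := by
    rw [Finset.sum_comm]
    exact Finset.sum_congr rfl fun r _ => trip_cross (φ r) D T hD
  have h8 : ∑ l, ∑ r, (trip (c r l - crossProduct (A l) (φ r) - ∑ t, B l r t • φ t)
        (Pi.single l 1) (c r) T +
      trip (φ r) (Pi.single l 1) (dc r l) T + trip (φ r) (Pi.single l 1) (c r) (dT l)) =
      ∑ l, ∑ r, (trip (c r l - crossProduct (A l) (φ r) - ∑ t, B l r t • φ t)
        (Pi.single l 1) (c r) T +
      trip (φ r) (Pi.single l 1) (fun m => dc r l m - (1 / 2 : ℝ) • crossProduct (D l m) (φ r)) T +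
        trip (φ r) (Pi.single l 1) (c r) (dT l)) +
      ∑ l, ∑ r, trip (φ r) (Pi.single l 1)
        (fun m => (1 / 2 : ℝ) • crossProduct (D l m) (φ r)) T := by
    rw [← Finset.sum_add_distrib]
    refine Finset.sum_congr rfl fun l _ => ?_
    rw [← Finset.sum_add_distrib]
    refine Finset.sum_congr rfl fun r _ => ?_
    rw [h5]
    ring
  rw [h8, key, h7]
  simp only [h6, Finset.sum_add_distrib]
  ring

theorem crossGram_tw (ρ : Fin 3 → R3) (F : Fin 4 → Fin 4 → R3) :
    crossGram F (tw ρ F) = gram F * (Matrix.of ρ).transpose := by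
  ext a b
  simp only [crossGram, tw, gram, Matrix.mul_apply, Matrix.transpose_apply, Matrix.of_apply,
    Fin.sum_univ_three, wedge, Pool.Agent.Helper8.DC.cmp]
  ring

theorem gram_tw (ρ : Fin 3 → R3) (F : Fin 4 → Fin 4 → R3) :
    gram (tw ρ F) = Matrix.of ρ * gram F * (Matrix.of ρ).transpose := by
  ext a b
  simp only [tw, gram, Matrix.mul_apply, Matrix.transpose_apply, Matrix.of_apply,
    Fin.sum_univ_three, wedge, Pool.Agent.Helper8.DC.cmp]
  ring

theorem val_tw (ρ : Fin 3 → R3) (F : Fin 4 → Fin 4 → R3) (u v : Fin 4 → ℝ) (r : Fin 3) :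
    val (tw ρ F) u v r = ∑ a, ρ r a * val F u v a := by
  simp only [val, Finset.sum_apply, Pi.smul_apply, smul_eq_mul, Fin.sum_univ_four, Pi.add_apply,
    tw, Fin.sum_univ_three]
  ring

theorem quad_tw (ρ : Fin 3 → R3) (α : Fin 4 → R3) (F : Fin 4 → Fin 4 → R3) :
    quad (fun m r => ∑ a, ρ r a * α m a) (tw ρ F) = (Matrix.of ρ).det * quad α F := by
  simp only [quad, tw, wedge3, wedge, wed, cm1, Pool.Agent.Helper8.DC.cmp, Matrix.det_fin_three, Matrix.of_apply,
    Fin.sum_univ_three]
  ring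

theorem urb_tw (ρ : Fin 3 → R3) (F : Fin 4 → Fin 4 → R3) (u : Fin 4 → ℝ) :
    quad (fun m a => val (tw ρ F) u (Pi.single m 1) a) (tw ρ F) =
      (Matrix.of ρ).det * quad (fun m a => val F u (Pi.single m 1) a) F := by
  rw [← quad_tw]
  congr 1
  funext m r
  exact val_tw ρ F u _ r

theorem curvTerm_crossT (F T : Fin 4 → Fin 4 → R3) (φ : Fin 3 → R3) :
    ∑ r, restK (φ r) (crossGram F T) + curvTerm (fun r t l m => crossMat (F l m) r t) φ T =
      kE (crossGram F T) φ := by
  have key : ∀ r t c : Fin 3, wedge (fun l m => crossMat (F l m) r t) (cmp T c) =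
      ∑ d, crossMat (Pi.single d 1) r t * crossGram F T d c := by
    intro r t c
    have h : (fun l m => crossMat (F l m) r t) =
        fun l m => ∑ d, crossMat (Pi.single d 1) r t * F l m d := by
      funext l m
      exact Pool.Agent.Helper43.DE.crossMat_lin _ _ _
    rw [h]
    simp only [wedge, crossGram, Pool.Agent.Helper8.DC.cmp, Fin.sum_univ_three]
    ring
  simp only [curvTerm, kE, restK, key]

end

end Pool.Agent.Helper35.HX
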