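import Pool.Agent.Helper8.HX.Defs
import Pool.Agent.Helper8.DC.Sm

/-!
HX: integration by parts and the fundamental lemma (V3)
-/

set_option autoImplicit false
set_option linter.unusedSimpArgs false

open scoped Manifold ContDiff
open MeasureTheory

namespace Pool.Agent.Helper35.HX

open Pool.Agent.Helper8.DC Pool.Agent.Helper8.DA Pool.Agent.Helper8.DE Pool.Agent.Helper8.HX

noncomputable section

theorem integrable_mul_of_tsupport {χ g : E4 → ℝ} {U : Set E4} (hU : IsOpen U)
    (hχ : Continuous χ) (hc : HasCompactSupport χ) (hs : tsupport χ ⊆ U)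
    (hg : ContinuousOn g U) : Integrable (fun y => χ y * g y) (volume : Measure E4) := by
  have h1 : Continuous (fun y => χ y * g y) := by
    refine continuous_of_tsupport fun y hy => ?_
    have hy' : y ∈ U := hs (tsupport_mul_subset_left hy)
    exact hχ.continuousAt.mul (hg.continuousAt (hU.mem_nhds hy'))
  exact h1.integrable_of_hasCompactSupport hc.mul_right

/-- integration by parts -/
theorem integral_pd_mul {χ g : E4 → ℝ} {U : Set E4} (hU : IsOpen U)
    (hχ : ContDiff ℝ ∞ χ) (hc : HasCompactSupport χ) (hs : tsupport χ ⊆ U)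
    (hg : ContDiffOn ℝ ∞ g U) (l : Fin 4) :
    ∫ y, pd l χ y * g y = - ∫ y, χ y * pd l g y := by
  have hpc : Continuous (pd l χ) := by
    have h := (hχ.continuous_fderiv (by simp)).clm_apply
      (continuous_const (y := (EuclideanSpace.single l (1 : ℝ) : E4)))
    exact h
  have hpcs : HasCompactSupport (pd l χ) := hc.fderiv_apply ℝ _
  have hpts : tsupport (pd l χ) ⊆ U := (tsupport_fderiv_apply_subset ℝ _).trans hs
  have h1 := integrable_mul_of_tsupport hU hpc hpcs hpts hg.continuousOn
  have h2 := integrable_mul_of_tsupport hU hχ.continuous hc hs (sm_pd l hU hg).continuousOn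
  have h3 := integrable_mul_of_tsupport hU hχ.continuous hc hs hg.continuousOn
  have h := integral_mul_fderiv_eq_neg_fderiv_mul_of_integrable (𝕜 := ℝ) (μ := (volume : Measure E4))
    (f := χ) (g := g) (v := EuclideanSpace.single l (1 : ℝ)) h1 h2 h3
    (fun x _ => hχ.differentiable (by simp) x)
    (fun x hx => (hg.contDiffAt (hU.mem_nhds (hs hx))).differentiableAt (by simp))
  have h' : ∫ y, χ y * pd l g y = - ∫ y, pd l χ y * g y := h
  rw [h', neg_neg]

theorem integrand_eq (ψ : Fin 3 → R3) (D F : Fin 4 → Fin 4 → R3) :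
    ∑ r, ∑ b, ψ r b * wedge (cmp D r) (cmp F b) =
      ∑ r, wedge (cmp D r) (fun l m => ∑ b, ψ r b * F l m b) := by
  refine Finset.sum_congr rfl fun r _ => ?_
  simp only [wedge, Pool.Agent.Helper8.DC.cmp, Fin.sum_univ_three]
  ring

theorem pd_smul_const (χ : E4 → ℝ) (v : R3) (y : E4) (h : DifferentiableAt ℝ χ y) (l : Fin 4) :
    pd l (fun z => χ z • v) y = pd l χ y • v := by
  have h1 := (h.hasFDerivAt.smul_const v).fderiv
  unfold pd
  rw [h1]
  rfl

theorem dvar_smul (A : E4 → Fin 4 → R3) (χ : E4 → ℝ) (v : Fin 4 → R3) (y : E4)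
    (h : DifferentiableAt ℝ χ y) (l m : Fin 4) :
    dvar A (fun z => χ z • v) y l m = pd l χ y • v m - pd m χ y • v l +
      χ y • (crossProduct (A y l) (v m) + crossProduct (v l) (A y m)) := by
  have h1 := pd_smul_const χ (v m) y h l
  have h2 := pd_smul_const χ (v l) y h m
  unfold dvar
  have h3 : pd l (fun z => (χ z • v) m) y = pd l χ y • v m := h1
  have h4 : pd m (fun z => (χ z • v) l) y = pd m χ y • v l := h2
  rw [h3, h4]
  simp only [Pi.smul_apply, map_smul, LinearMap.smul_apply, smul_add]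
  abel

/-- the coefficient of the derivatives of the test function -/
def wv (v : Fin 4 → R3) (η : Fin 3 → Fin 4 → Fin 4 → ℝ) (l : Fin 4) : ℝ :=
  ∑ r, wedge3 (Pi.single l 1) (fun n => v n r) (η r)

/-- the coefficient of the test function -/
def qv (a v : Fin 4 → R3) (η : Fin 3 → Fin 4 → Fin 4 → ℝ) : ℝ :=
  ∑ r, wedge (fun l n => (crossProduct (a l) (v n) + crossProduct (v l) (a n)) r) (η r)

theorem wedge3_single_add (a b : Fin 4 → ℝ) (B : Fin 4 → Fin 4 → ℝ) :
    ∑ l, a l * wedge3 (Pi.single l 1) b B = wedge3 a b B := by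
  simp only [wedge3, wedge, wed, Fin.sum_univ_four, Pi.single_apply, Fin.isValue]
  simp
  ring

theorem integrand_smul (c : Fin 4 → ℝ) (x : ℝ) (a v : Fin 4 → R3)
    (η : Fin 3 → Fin 4 → Fin 4 → ℝ) (D : Fin 4 → Fin 4 → R3)
    (hD : ∀ l m, D l m = c l • v m - c m • v l +
      x • (crossProduct (a l) (v m) + crossProduct (v l) (a m))) :
    ∑ r, wedge (cmp D r) (η r) = ∑ l, c l * wv v η l + x * qv a v η := by
  have h1 : ∑ l, c l * wv v η l = ∑ r, wedge3 c (fun n => v n r) (η r) := by
    simp only [wv, Finset.mul_sum]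
    rw [Finset.sum_comm]
    exact Finset.sum_congr rfl fun r _ => wedge3_single_add _ _ _
  rw [h1, qv, Finset.mul_sum, ← Finset.sum_add_distrib]
  refine Finset.sum_congr rfl fun r _ => ?_
  simp only [wedge3, wedge, wed, Pool.Agent.Helper8.DC.cmp, hD, Pi.add_apply, Pi.sub_apply,
    Pi.smul_apply, smul_eq_mul]
  ring

/-- `q_v` in terms of the connection acting on `η` -/
theorem qv_eq (a v : Fin 4 → R3) (η : Fin 3 → Fin 4 → Fin 4 → ℝ) :
    qv a v η = - ∑ l, wv v (fun r p q => ∑ t, crossMat (a l) r t * η t p q) l := by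
  have h : ∀ (b : R3) (r t : Fin 3), crossMat b r t = crossProduct b (Pi.single t 1) r :=
    fun _ _ _ => rfl
  simp only [qv, wv, wedge3, wedge, wed, h, cross_apply, Fin.sum_univ_four, Fin.sum_univ_three,
    Pi.single_apply, Pi.add_apply, Fin.isValue]
  simp
  ring

theorem wv_smooth {U : Set E4} {η : E4 → Fin 3 → Fin 4 → Fin 4 → ℝ}
    (hη : ∀ r p q, ContDiffOn ℝ ∞ (fun z => η z r p q) U) (v : Fin 4 → R3) (l : Fin 4) :
    ContDiffOn ℝ ∞ (fun z => wv v (η z) l) U := by
  unfold wv
  refine ContDiffOn.sum fun r _ => ?_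
  unfold wedge3
  exact sm_wedge (fun _ _ => contDiffOn_const) (fun p q => hη r p q)

theorem qv_smooth {U : Set E4} {A : E4 → Fin 4 → R3} {η : E4 → Fin 3 → Fin 4 → Fin 4 → ℝ}
    (hA : ContDiffOn ℝ ∞ A U)
    (hη : ∀ r p q, ContDiffOn ℝ ∞ (fun z => η z r p q) U) (v : Fin 4 → R3) :
    ContDiffOn ℝ ∞ (fun z => qv (A z) v (η z)) U := by
  unfold qv
  refine ContDiffOn.sum fun r _ => ?_
  refine sm_wedge (fun p q => ?_) (fun p q => hη r p q)
  exact contDiffOn_pi.mp ((sm_cross (sm_comp hA p) contDiffOn_const).add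
    (sm_cross contDiffOn_const (sm_comp hA q))) r

theorem pd_wedge_const (l : Fin 4) (C : Fin 4 → Fin 4 → ℝ) (B : E4 → Fin 4 → Fin 4 → ℝ) (y : E4)
    (hB : ∀ p q, DifferentiableAt ℝ (fun z => B z p q) y) :
    pd l (fun z => wedge C (B z)) y = wedge C (fun p q => pd l (fun z => B z p q) y) := by
  have h := ((((((hB 2 3).hasFDerivAt.const_mul (C 0 1)).sub
    ((hB 1 3).hasFDerivAt.const_mul (C 0 2))).add
    ((hB 1 2).hasFDerivAt.const_mul (C 0 3))).add
    ((hB 0 3).hasFDerivAt.const_mul (C 1 2))).sub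
    ((hB 0 2).hasFDerivAt.const_mul (C 1 3))).add
    ((hB 0 1).hasFDerivAt.const_mul (C 2 3))
  have h2 : fderiv ℝ (fun z => wedge C (B z)) y = _ := h.fderiv
  unfold pd
  rw [h2]
  rfl

theorem pd_wv (l : Fin 4) (v : Fin 4 → R3) (η : E4 → Fin 3 → Fin 4 → Fin 4 → ℝ) (y : E4)
    (hη : ∀ r p q, DifferentiableAt ℝ (fun z => η z r p q) y) (k : Fin 4) :
    pd l (fun z => wv v (η z) k) y = wv v (fun r p q => pd l (fun z => η z r p q) y) k := by
  have hd : ∀ r, DifferentiableAt ℝ (fun z => wedge3 (Pi.single k 1) (fun n => v n r) (η z r)) y := by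
    intro r
    have h := ((((((hη r 2 3).const_mul (wed (Pi.single k 1) (fun n => v n r) 0 1)).sub
      ((hη r 1 3).const_mul (wed (Pi.single k 1) (fun n => v n r) 0 2))).add
      ((hη r 1 2).const_mul (wed (Pi.single k 1) (fun n => v n r) 0 3))).add
      ((hη r 0 3).const_mul (wed (Pi.single k 1) (fun n => v n r) 1 2))).sub
      ((hη r 0 2).const_mul (wed (Pi.single k 1) (fun n => v n r) 1 3))).add
      ((hη r 0 1).const_mul (wed (Pi.single k 1) (fun n => v n r) 2 3))
    exact h
  have h1 : pd l (fun z => wv v (η z) k) y =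
      ∑ r, pd l (fun z => wedge3 (Pi.single k 1) (fun n => v n r) (η z r)) y := by
    have h2 := (HasFDerivAt.fun_sum (u := Finset.univ) fun r _ => (hd r).hasFDerivAt).fderiv
    have h3 : fderiv ℝ (fun z => wv v (η z) k) y = _ := h2
    unfold pd
    rw [h3, sum_apply]
  rw [h1]
  unfold wv
  refine Finset.sum_congr rfl fun r _ => ?_
  exact pd_wedge_const l _ (fun z => η z r) y (fun p q => hη r p q)

theorem wv_add (v : Fin 4 → R3) (η ζ : Fin 3 → Fin 4 → Fin 4 → ℝ) (l : Fin 4) :
    wv v (fun r p q => η r p q + ζ r p q) l = wv v η l + wv v ζ l := by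
  simp only [wv, wedge3, wedge, Fin.sum_univ_three]
  ring

theorem wv_single (m : Fin 4) (r : Fin 3) (η : Fin 3 → Fin 4 → Fin 4 → ℝ) (l : Fin 4) :
    wv (Pi.single m (Pi.single r 1)) η l = wedge3 (Pi.single l 1) (Pi.single m 1) (η r) := by
  have h : ∀ (n : Fin 4) (t : Fin 3), (Pi.single m (Pi.single r (1 : ℝ)) : Fin 4 → R3) n t =
      if t = r then (Pi.single m (1 : ℝ) : Fin 4 → ℝ) n else 0 := by
    intro n t
    by_cases hn : n = m
    · subst hn
      by_cases ht : t = r
      · subst ht; simp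
      · simp [ht]
    · by_cases ht : t = r
      · subst ht; simp [Pi.single_eq_of_ne hn]
      · simp [Pi.single_eq_of_ne hn]
  unfold wv
  rw [Finset.sum_eq_single r]
  · simp only [h, if_true]
  · intro t _ ht
    simp only [h, if_neg ht, wedge3, wedge, wed]
    ring
  · intro h'
    exact absurd (Finset.mem_univ r) h'

/-- the four components determine the cyclic sums -/
theorem cyc_of_wedge3 (D : Fin 4 → Fin 4 → Fin 4 → ℝ) (hD : ∀ l m n, D l m n = - D l n m)
    (h : ∀ m, ∑ l, wedge3 (Pi.single l 1) (Pi.single m 1) (D l) = 0) (l m n : Fin 4) :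
    D l m n + D m n l + D n l m = 0 := by
  have h0 := h 0
  have h1 := h 1
  have h2 := h 2
  have h3 := h 3
  simp only [wedge3, wedge, wed, Fin.sum_univ_four, Pi.single_apply, Fin.isValue] at h0 h1 h2 h3
  simp at h0 h1 h2 h3
  have e10 := fun k => hD k 1 0
  have e20 := fun k => hD k 2 0
  have e30 := fun k => hD k 3 0
  have e21 := fun k => hD k 2 1
  have e31 := fun k => hD k 3 1
  have e32 := fun k => hD k 3 2
  have s00 : ∀ k, D k 0 0 = 0 := fun k => by linarith [hD k 0 0]
  have s11 : ∀ k, D k 1 1 = 0 := fun k => by linarith [hD k 1 1]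
  have s22 : ∀ k, D k 2 2 = 0 := fun k => by linarith [hD k 2 2]
  have s33 : ∀ k, D k 3 3 = 0 := fun k => by linarith [hD k 3 3]
  clear h hD
  fin_cases l <;> fin_cases m <;> fin_cases n <;>
    simp only [Fin.zero_eta, Fin.mk_one, Fin.reduceFinMk, Fin.isValue, e10, e20, e30, e21, e31, e32,
      s00, s11, s22, s33] <;>
    linarith only [h0, h1, h2, h3]

theorem dvar_off (A a : E4 → Fin 4 → R3) (z : E4) (hz : z ∉ tsupport a) (l m : Fin 4) :
    dvar A a z l m = 0 := by
  have h0 : a =ᶠ[nhds z] 0 := notMem_tsupport_iff_eventuallyEq.mp hz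
  have hz0 : a z = 0 := h0.eq_of_nhds
  have h1 : ∀ k n : Fin 4, pd k (fun x => a x n) z = 0 := by
    intro k n
    have h2 : (fun x => a x n) =ᶠ[nhds z] fun _ => (0 : R3) :=
      h0.mono fun x hx => congrFun hx n
    unfold pd
    rw [h2.fderiv_eq]
    simp
  unfold dvar
  rw [h1, h1, hz0]
  simp

theorem variation_identity (A : E4 → Fin 4 → R3) (ψ : E4 → Fin 3 → R3) (U : Set E4)
    (hU : IsOpen U) (hA : ContDiffOn ℝ ∞ A U)
    (hη : ∀ r p q, ContDiffOn ℝ ∞ (fun z => formL A ψ z r p q) U)
    (hvar : ∀ a : E4 → Fin 4 → R3, ContDiff ℝ ∞ a → HasCompactSupport a → tsupport a ⊆ U →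
      ∫ y in tsupport a, ∑ r, ∑ b, ψ y r b * wedge (cmp (dvar A a y) r) (cmp (curv A y) b) = 0)
    (v : Fin 4 → R3) (χ : E4 → ℝ) (hχ : ContDiff ℝ ∞ χ) (hc : HasCompactSupport χ)
    (hs : tsupport χ ⊆ U) :
    ∫ z, χ z * (qv (A z) v (formL A ψ z) - ∑ l, pd l (fun x => wv v (formL A ψ x) l) z) = 0 := by
  have ha1 : ContDiff ℝ ∞ (fun z => χ z • v) := hχ.smul contDiff_const
  have hts : tsupport (fun z => χ z • v) ⊆ tsupport χ := tsupport_smul_subset_left χ (fun _ => v)
  have ha2 : HasCompactSupport (fun z => χ z • v) := hc.smul_right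
  have h := hvar _ ha1 ha2 (hts.trans hs)
  have hoff : ∀ z, z ∉ tsupport (fun z => χ z • v) →
      ∑ r, ∑ b, ψ z r b * wedge (cmp (dvar A (fun z => χ z • v) z) r) (cmp (curv A z) b) = 0 := by
    intro z hz
    have h1 : ∀ r, cmp (dvar A (fun z => χ z • v) z) r = fun _ _ => 0 := by
      intro r
      funext l m
      simp only [Pool.Agent.Helper8.DC.cmp]
      rw [dvar_off A _ z hz l m]
      rfl
    refine Finset.sum_eq_zero fun r _ => Finset.sum_eq_zero fun b _ => ?_
    rw [h1 r]
    simp only [wedge]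
    ring
  rw [setIntegral_eq_integral_of_forall_compl_eq_zero hoff] at h
  have hint : ∀ z,
      ∑ r, ∑ b, ψ z r b * wedge (cmp (dvar A (fun z => χ z • v) z) r) (cmp (curv A z) b) =
        ∑ l, pd l χ z * wv v (formL A ψ z) l + χ z * qv (A z) v (formL A ψ z) := by
    intro z
    rw [integrand_eq]
    exact integrand_smul (fun l => pd l χ z) (χ z) (A z) v (formL A ψ z) _
      (fun l m => dvar_smul A χ v z (hχ.differentiable (by simp) z) l m)
  have hI1 : ∀ l, Integrable (fun z => pd l χ z * wv v (formL A ψ z) l) (volume : Measure E4) := by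
    intro l
    have hpc : Continuous (pd l χ) := by
      have h := (hχ.continuous_fderiv (by simp)).clm_apply
        (continuous_const (y := (EuclideanSpace.single l (1 : ℝ) : E4)))
      exact h
    exact integrable_mul_of_tsupport hU hpc (hc.fderiv_apply ℝ _)
      ((tsupport_fderiv_apply_subset ℝ _).trans hs) (wv_smooth hη v l).continuousOn
  have hI2 : Integrable (fun z => χ z * qv (A z) v (formL A ψ z)) (volume : Measure E4) :=
    integrable_mul_of_tsupport hU hχ.continuous hc hs (qv_smooth hA hη v).continuousOn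
  have hI3 : ∀ l, Integrable (fun z => χ z * pd l (fun x => wv v (formL A ψ x) l) z)
      (volume : Measure E4) := fun l =>
    integrable_mul_of_tsupport hU hχ.continuous hc hs (sm_pd l hU (wv_smooth hη v l)).continuousOn
  have h4 : ∫ z, (∑ l, pd l χ z * wv v (formL A ψ z) l + χ z * qv (A z) v (formL A ψ z)) = 0 := by
    rw [← h]
    exact integral_congr_ae (Filter.Eventually.of_forall fun z => (hint z).symm)
  rw [integral_add (integrable_finsetSum _ fun l _ => hI1 l) hI2,
    integral_finsetSum _ fun l _ => hI1 l] at h4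
  have h5 : ∀ l, ∫ z, pd l χ z * wv v (formL A ψ z) l =
      - ∫ z, χ z * pd l (fun x => wv v (formL A ψ x) l) z := fun l =>
    integral_pd_mul hU hχ hc hs (wv_smooth hη v l) l
  have h6 : ∀ z, χ z * (qv (A z) v (formL A ψ z) - ∑ l, pd l (fun x => wv v (formL A ψ x) l) z) =
      χ z * qv (A z) v (formL A ψ z) - ∑ l, χ z * pd l (fun x => wv v (formL A ψ x) l) z := by
    intro z
    rw [mul_sub, Finset.mul_sum]
  rw [integral_congr_ae (Filter.Eventually.of_forall h6),
    integral_sub hI2 (integrable_finsetSum _ fun l _ => hI3 l),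
    integral_finsetSum _ fun l _ => hI3 l]
  rw [Finset.sum_congr rfl fun l _ => h5 l, Finset.sum_neg_distrib] at h4
  linarith

theorem closed_of_variation (A : E4 → Fin 4 → R3) (ψ : E4 → Fin 3 → R3) (U : Set E4)
    (hU : IsOpen U) (hA : ContDiffOn ℝ ∞ A U) (hψ : ContDiffOn ℝ ∞ ψ U)
    (hvar : ∀ a : E4 → Fin 4 → R3, ContDiff ℝ ∞ a → HasCompactSupport a → tsupport a ⊆ U →
      ∫ y in tsupport a, ∑ r, ∑ b, ψ y r b *
        wedge (cmp (dvar A a y) r) (cmp (curv A y) b) = 0) (y : E4) (hy : y ∈ U) :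
    ClosedAt (fun z m => crossMat (A z m)) (formL A ψ) y := by
  have hη : ∀ r p q, ContDiffOn ℝ ∞ (fun z => formL A ψ z r p q) U := by
    intro r p q
    unfold formL Bundle.form
    exact ContDiffOn.sum fun b _ => (contDiffOn_pi.mp (contDiffOn_pi.mp hψ r) b).mul
      (contDiffOn_pi.mp (sm_curv hU hA p q) b)
  have hloc : ∀ v : Fin 4 → R3,
      qv (A y) v (formL A ψ y) - ∑ l, pd l (fun x => wv v (formL A ψ x) l) y = 0 := by
    intro v
    have hcont : ContinuousOn (fun z => qv (A z) v (formL A ψ z) -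
        ∑ l, pd l (fun x => wv v (formL A ψ x) l) z) U :=
      ((qv_smooth hA hη v).sub
        (ContDiffOn.sum fun l _ => sm_pd l hU (wv_smooth hη v l))).continuousOn
    have h1 := hU.ae_eq_zero_of_integral_contDiff_smul_eq_zero (μ := (volume : Measure E4))
      (hcont.locallyIntegrableOn hU.measurableSet)
      (fun χ hχ hc hs => variation_identity A ψ U hU hA hη hvar v χ hχ hc hs)
    have h2 : (fun z => qv (A z) v (formL A ψ z) -
        ∑ l, pd l (fun x => wv v (formL A ψ x) l) z) =ᵐ[volume.restrict U] fun _ => (0 : ℝ) :=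
      (ae_restrict_iff' hU.measurableSet).mpr h1
    exact Measure.eqOn_open_of_ae_eq h2 hU hcont continuousOn_const hy
  have hd : ∀ r p q, DifferentiableAt ℝ (fun z => formL A ψ z r p q) y := fun r p q =>
    ((hη r p q).contDiffAt (hU.mem_nhds hy)).differentiableAt (by simp)
  have hskew : ∀ z r p q, formL A ψ z r p q = - formL A ψ z r q p := by
    intro z r p q
    unfold formL Bundle.form
    rw [← Finset.sum_neg_distrib]
    refine Finset.sum_congr rfl fun b _ => ?_
    have hc : curv A z p q = - curv A z q p := by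
      unfold curv
      rw [← neg_cross]
      abel
    rw [hc]
    simp
  have hmain : ∀ v : Fin 4 → R3, ∑ l, wv v (fun r p q =>
      dcov (fun z m => crossMat (A z m)) (formL A ψ) y r l p q) l = 0 := by
    intro v
    have h1 := hloc v
    rw [qv_eq] at h1
    have h2 : ∀ l, pd l (fun x => wv v (formL A ψ x) l) y =
        wv v (fun r p q => pd l (fun z => formL A ψ z r p q) y) l := fun l =>
      pd_wv l v (formL A ψ) y hd l
    rw [Finset.sum_congr rfl fun l _ => h2 l] at h1
    have h3 : ∀ l, wv v (fun r p q =>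
        dcov (fun z m => crossMat (A z m)) (formL A ψ) y r l p q) l =
        wv v (fun r p q => pd l (fun z => formL A ψ z r p q) y) l +
        wv v (fun r p q => ∑ t, crossMat (A y l) r t * formL A ψ y t p q) l := fun l =>
      wv_add v _ _ l
    rw [Finset.sum_congr rfl fun l _ => h3 l, Finset.sum_add_distrib]
    linarith
  intro r l m n
  refine cyc_of_wedge3 (fun l m n => dcov (fun z m => crossMat (A z m)) (formL A ψ) y r l m n)
    ?_ ?_ l m n
  · intro l m n
    have h1 : (fun z => formL A ψ z r m n) = fun z => - formL A ψ z r n m := by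
      funext z
      exact hskew z r m n
    have h2 : pd l (fun z => formL A ψ z r m n) y = - pd l (fun z => formL A ψ z r n m) y := by
      rw [h1]
      unfold pd
      rw [fderiv_fun_neg]
      rfl
    unfold dcov
    rw [h2, neg_add, ← Finset.sum_neg_distrib]
    refine congrArg _ (Finset.sum_congr rfl fun t _ => ?_)
    rw [hskew y t m n]
    ring
  · intro m
    have h1 := hmain (Pi.single m (Pi.single r 1))
    rw [Finset.sum_congr rfl fun l _ => wv_single m r _ l] at h1
    exact h1

end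

end Pool.Agent.Helper35.HX
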